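import Pool.Agent.Q29.IC.Main

/-!
# The direct product of two free groups of rank two is intersection-full

The definitions (`k`-configurations, intersection configurations, realizability,
intersection-full groups) are in `Pool.Agent.Q29.IC.Defs`.  The subgroups used in the proof are
fibre products, over a free group, of free factors of two free groups of finite rank.
-/

namespace Pool.Agent.Results.MP_d567b2_al.ProductOfFreeGroups

open Q29.IC

/-- The group `F₂ × F₂` is finitely presented and intersection-full, and it does not contain
`F₂ × ℤ²`. -/
theorem result :
    Group.IsFinitelyPresented (FreeGroup (Fin 2) × FreeGroup (Fin 2)) ∧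
      IntersectionFull (FreeGroup (Fin 2) × FreeGroup (Fin 2)) ∧
      ¬ Contains (FreeGroup (Fin 2) × FreeGroup (Fin 2))
        (FreeGroup (Fin 2) × (Fin 2 → Multiplicative ℤ)) :=
  ⟨isFinitelyPresented, intersectionFull, not_contains⟩

end Pool.Agent.Results.MP_d567b2_al.ProductOfFreeGroups
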